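import Mathlib
import Pool.Agent.Helper64.ETH.Glue

/-!
# Glue, where the time bound is assumed only for small transversals

`DualS tm eIn eOut P T`: the machine `tm` writes the minimal transversals of every hypergraph and halts; if every minimal
transversal has at most `k` elements, where `P n k N`, `n` is the number of vertices and `N` the length of the input plus the
length of the output, it halts after at most `T N` steps.
-/

set_option autoImplicit false

namespace Pool.Agent.Helper64.ETHS

open Turing StateTransition Pool.Agent.Helper64.ETH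

/-- A dualization machine with time bound `T N` on the hypergraphs whose minimal transversals have at most `k` elements
for some `k` with `P n k N`. -/
def DualS (tm : FinTM2) (eIn : tm.Γ tm.k₀ ≃ Option Bool) (eOut : tm.Γ tm.k₁ ≃ Option Bool)
    (P : ℕ → ℕ → ℕ → Prop) (T : ℕ → ℕ) : Prop :=
  ∀ n : ℕ, ∀ E : List (Finset (Fin n)),
    ∃ L : List (Finset (Fin n)),
      L.Nodup ∧
      (∀ T : Finset (Fin n),
        T ∈ L ↔ Minimal (fun S : Finset (Fin n) => ∀ e ∈ E, (S ∩ e).Nonempty) T) ∧
      ∃ t : ℕ,
        Nonempty (EvalsToInTime tm.step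
          (initList tm (List.map (fun b : Option Bool => eIn.symm b) (inCode n E)))
          (some (haltList tm (List.map (fun b : Option Bool => eOut.symm b) (rowsCode L)))) t) ∧
        (∀ k : ℕ, (∀ S ∈ L, S.card ≤ k) → P n k ((inCode n E).length + (rowsCode L).length) →
          t ≤ T ((inCode n E).length + (rowsCode L).length))

/-- **Glue**: the clocked run decides whether some minimal transversal has more than `s` elements. -/
theorem glueS {tm : FinTM2} {eIn : tm.Γ tm.k₀ ≃ Option Bool} {eOut : tm.Γ tm.k₁ ≃ Option Bool}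
    {P : ℕ → ℕ → ℕ → Prop} {T : ℕ → ℕ} (hD : DualS tm eIn eOut P T) (hT : Monotone T)
    {ck : List (Option Bool) → ℕ → Option (List (Option Bool))} (hck : ClockSpec tm eIn eOut ck)
    {n : ℕ} (E : List (Finset (Fin n))) {s t : ℕ}
    (hP : ∀ N : ℕ, (inCode n E).length ≤ N → P n s N)
    (ht : T ((inCode n E).length + (n + 1) ^ (s + 1)) ≤ t) :
    verdict s (ck (inCode n E) t) = true ↔
      ∃ T : Finset (Fin n),
        Minimal (fun S : Finset (Fin n) => ∀ e ∈ E, (S ∩ e).Nonempty) T ∧ s < T.card := by
  obtain ⟨L, hL, hmem, u, hev, hu⟩ := hD n E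
  obtain ⟨h1, h2⟩ := hck (inCode n E) (rowsCode L) _ t hev
  constructor
  · intro h
    by_contra hno
    push Not at hno
    have hsmall : ∀ T ∈ L, T.card ≤ s := fun T hT => hno T ((hmem T).1 hT)
    have hlen : (rowsCode L).length ≤ (n + 1) ^ (s + 1) := by
      rw [length_rows, pow_succ]
      exact Nat.mul_le_mul_right _ (length_le hL hsmall)
    have hu' := hu s hsmall (hP _ (Nat.le_add_right _ _))
    have hc := h1 (hu'.trans ((hT (Nat.add_le_add_left hlen (inCode n E).length)).trans ht))
    rw [hc] at h
    obtain ⟨T, hT, hc'⟩ := (bigRow_rows s L).1 h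
    exact absurd (hsmall T hT) (by omega)
  · rintro ⟨T, hT, hs⟩
    rcases h2 with h2 | h2
    · rw [h2]
      rfl
    · rw [h2]
      exact (bigRow_rows s L).2 ⟨T, (hmem T).2 hT, hs⟩

end Pool.Agent.Helper64.ETHS
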