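import Mathlib
import Pool.Agent.Helper64.ETHT.MainT
import Pool.Agent.Helper64.ETHS.Glue

/-!
# The machine for 3SAT from a dualization machine whose time bound is assumed only for small transversals
-/

set_option autoImplicit false

namespace Pool.Agent.Helper64.ETHS

open Pool.Agent.Helper36.PT Pool.Agent.Helper81.VCP Pool.Agent.Helper50.ETH
open Pool.Agent.Helper64.ETH Pool.Agent.Helper33.ETH

theorem main_T3 {P : ℕ → ℕ → ℕ → Prop} {T : ℕ → ℕ} (hT : Monotone T) {tm : Turing.FinTM2}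
    {eIn : tm.Γ tm.k₀ ≃ Option Bool} {eOut : tm.Γ tm.k₁ ≃ Option Bool} (hD : DualS tm eIn eOut P T)
    (hP : ∀ n N : ℕ, nE n ≤ N → P (nV n) (2 * kap n) N)
    (prs : Word → Inst) (hp : PolyTime prs)
    (hps : ∀ (n : ℕ) (φ : List (Fin n → Option Bool)),
      prs ⟨(code φ).flatMap cod⟩ = (n, φ.map List.ofFn))
    (wordT : Inst × ℕ → List (Option Bool)) (hw : PolyTime wordT)
    (hws : ∀ (n : ℕ) (cl : List (List (Option Bool))) (P : ℕ), bound n ≤ P →
      wordT ((n, cl), P) = word n cl)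
    (hk : PolyTime kap) :
    ∃ C2 : ℕ, ∀ B : ℕ → ℕ, PolyTime B → (∀ n, bound n ≤ 2 ^ B n) → (∀ n, T (bound n - 2) ≤ 2 ^ B n) →
    ∃ tm : Turing.FinTM2, ∃ eIn : tm.Γ tm.k₀ ≃ Option Bool, ∃ eOut : tm.Γ tm.k₁ ≃ Option Bool,
      ∃ C : ℕ, ∀ (n : ℕ) (φ : List (Fin n → Option Bool)), Width3 φ →
        Nonempty (Turing.EvalsToInTime tm.step
          (Turing.initList tm (List.map (fun b : Option Bool => eIn.symm b) (code φ)))
          (some (Turing.haltList tm
            (List.map (fun b : Option Bool => eOut.symm b) [some (dec (Sat φ))])))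
          ((n + φ.length + 2) ^ C * 2 ^ (C2 * B n))) := by
  have hbig : PolyTime (fun p : ℕ × List (Option Bool) => bigRow p.1 p.2) :=
    bigRow_pt (by fun_prop) (by fun_prop)
  have hck : ClockSpec tm eIn eOut (clock tm eIn eOut) :=
    fun u v s t h => clock_spec tm eIn eOut u v s h t
  obtain ⟨C2, h2⟩ := Pool.Agent.Helper64.ETHT.assemble2 prs hp hps (ansOf wordT (clock tm eIn eOut))
    (ansOf_pt hk hbig wordT hw (clock tm eIn eOut) (clock_pt tm eIn eOut))
  refine ⟨C2, fun B hB hb hTB => h2 B hB ?_⟩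
  intro n φ hφ
  unfold ansOf
  dsimp only
  rw [hws n _ _ (hb n)]
  have he : word n (φ.map List.ofFn) =
      inCode (nV n) (Pool.Agent.Helper68.ETH.EE n (φ.map List.ofFn)) :=
    Pool.Agent.Helper68.ETH.word_eq n _
  rw [he]
  refine (glueS hD hT hck _ (s := 2 * kap n) ?_ ?_).trans (inst_iff n φ hφ)
  · intro N hN
    refine hP n N (le_trans ?_ hN)
    rw [length_inCode, Pool.Agent.Helper68.ETH.EE_length]
    have h1 : nE n * 1 ≤ nE n * (nV n + 1) := Nat.mul_le_mul_left _ (by omega)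
    omega
  refine (hT ?_).trans (hTB n)
  rw [length_inCode, Pool.Agent.Helper68.ETH.EE_length]
  unfold bound
  have h1 : (nV n + 1) ^ (2 * kap n + 1) ≤ (nV n + 1) ^ (2 * kap n + 2) :=
    Nat.pow_le_pow_right (by omega) (by omega)
  have h2 : (nE n + 1) * (nV n + 1) = nV n + 1 + nE n * (nV n + 1) := by ring
  omega

end Pool.Agent.Helper64.ETHS
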