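import Mathlib
import Pool.Agent.Helper16.ETH.Params

/-!
# The transversals of the instance are small compared with its size

`nE n ≥ κ ^ (6 κ²)`, so `κ² ≤ log N / log log N` for `N ≥ nE n`.
-/

set_option autoImplicit false

namespace Pool.Agent.Helper64.ETHS

open Pool.Agent.Helper50.ETH Pool.Agent.Helper16.ETH

/-- `y / log y` is increasing for `y ≥ e`. -/
theorem ratio_mono {y Y : ℝ} (h0 : 0 < y) (hy : 1 ≤ Real.log y) (h : y ≤ Y) :
    y / Real.log y ≤ Y / Real.log Y := by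
  have hY0 : 0 < Y := h0.trans_le h
  have hl : Real.log y ≤ Real.log Y := Real.log_le_log h0 h
  have hly : 0 < Real.log y := by linarith
  have hlY : 0 < Real.log Y := by linarith
  have ht1 : 1 ≤ Y / y := (one_le_div h0).2 h
  have h1 : Real.log Y ≤ (Y / y) * Real.log y := by
    have h2 : Real.log (Y / y) ≤ Y / y - 1 := Real.log_le_sub_one_of_pos (by positivity)
    rw [Real.log_div hY0.ne' h0.ne'] at h2
    have h3 : Y / y - 1 ≤ (Y / y - 1) * Real.log y := le_mul_of_one_le_right (by linarith) hy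
    nlinarith
  rw [div_le_div_iff₀ hly hlY]
  calc y * Real.log Y ≤ y * ((Y / y) * Real.log y) := mul_le_mul_of_nonneg_left h1 h0.le
    _ = Y * Real.log y := by field_simp

theorem pow_le_nE (n : ℕ) : kap n ^ (6 * kap n ^ 2) ≤ nE n := by
  unfold nE
  have h1 : kap n ^ 6 ≤ qq n := by
    rw [← mm_eq]
    exact mm_le_qq n
  have h2 : 1 ≤ mm n := mm_pos n
  calc kap n ^ (6 * kap n ^ 2) = (kap n ^ 6) ^ (kap n ^ 2) := by rw [pow_mul]
    _ ≤ qq n ^ (kap n ^ 2) := Nat.pow_le_pow_left h1 _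
    _ = 1 * qq n ^ DD n := by rw [one_mul]; rfl
    _ ≤ mm n * qq n ^ DD n := Nat.mul_le_mul_right _ h2

/-- **Size**: the bound `2 κ` on the transversals is at most `2 √(log N / log log N)`. -/
theorem kap_le_sqrt (n N : ℕ) (hN : nE n ≤ N) :
    (kap n : ℝ) ≤ √(Real.log N / Real.log (Real.log N)) := by
  have hk : (2 : ℝ) ≤ kap n := by exact_mod_cast two_le_kap n
  have hk0 : (0 : ℝ) < kap n := by linarith
  have hlk : (0.69 : ℝ) ≤ Real.log (kap n) := by
    have h1 := Real.log_two_gt_d9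
    have h2 := Real.log_le_log (by norm_num) hk
    linarith
  have h1 : (kap n : ℝ) ^ (6 * kap n ^ 2) ≤ N := by
    exact_mod_cast (pow_le_nE n).trans hN
  obtain ⟨Y, hY⟩ : ∃ Y : ℝ, Y = 6 * (kap n : ℝ) ^ 2 * Real.log (kap n) := ⟨_, rfl⟩
  have h2 : Y ≤ Real.log N := by
    have h3 := Real.log_le_log (by positivity) h1
    rw [Real.log_pow] at h3
    rw [hY]
    push_cast at h3
    exact h3
  have hY16 : (16 : ℝ) ≤ Y := by
    rw [hY]
    have h4 : (4 : ℝ) ≤ (kap n : ℝ) ^ 2 := by nlinarith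
    calc (16 : ℝ) ≤ 6 * 4 * 0.69 := by norm_num
      _ ≤ 6 * (kap n : ℝ) ^ 2 * Real.log (kap n) := by
          apply mul_le_mul _ hlk (by norm_num) (by positivity)
          linarith
  have hY0 : 0 < Y := by linarith
  have hlY : 1 ≤ Real.log Y := by
    rw [Real.le_log_iff_exp_le hY0]
    have := Real.exp_one_lt_d9
    linarith
  have hlY6 : Real.log Y ≤ 6 * Real.log (kap n) := by
    have h5 : Y ≤ (kap n : ℝ) ^ 6 := by
      rw [hY]
      have h6 : Real.log (kap n) ≤ kap n - 1 := Real.log_le_sub_one_of_pos hk0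
      have h7 : (8 : ℝ) ≤ (kap n : ℝ) ^ 3 := by
        calc (8 : ℝ) = 2 ^ 3 := by norm_num
          _ ≤ (kap n : ℝ) ^ 3 := pow_le_pow_left₀ (by norm_num) hk 3
      have h8 : 6 * Real.log (kap n) ≤ (kap n : ℝ) ^ 4 := by
        have h9 : 8 * (kap n : ℝ) ≤ (kap n : ℝ) ^ 3 * kap n := mul_le_mul_of_nonneg_right h7 hk0.le
        have h10 : (kap n : ℝ) ^ 4 = (kap n : ℝ) ^ 3 * kap n := by ring
        rw [h10]
        linarith
      calc 6 * (kap n : ℝ) ^ 2 * Real.log (kap n) = (kap n : ℝ) ^ 2 * (6 * Real.log (kap n)) := by ring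
        _ ≤ (kap n : ℝ) ^ 2 * (kap n : ℝ) ^ 4 := mul_le_mul_of_nonneg_left h8 (by positivity)
        _ = (kap n : ℝ) ^ 6 := by ring
    have h11 := Real.log_le_log hY0 h5
    rw [Real.log_pow] at h11
    push_cast at h11
    exact h11
  have h12 := ratio_mono hY0 hlY h2
  have h13 : (kap n : ℝ) ^ 2 ≤ Y / Real.log Y := by
    rw [le_div_iff₀ (by linarith)]
    calc (kap n : ℝ) ^ 2 * Real.log Y ≤ (kap n : ℝ) ^ 2 * (6 * Real.log (kap n)) :=
          mul_le_mul_of_nonneg_left hlY6 (by positivity)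
      _ = Y := by rw [hY]; ring
  exact Real.le_sqrt_of_sq_le (h13.trans h12)

/-- **Size**: there are at most `N ^ 2` tuples of `2 κ` vertices. -/
theorem nV_pow_le (n N : ℕ) (hN : nE n ≤ N) : nV n ^ (2 * kap n) ≤ N ^ 2 := by
  have hk := two_le_kap n
  have h1 : nV n ≤ kap n ^ (6 + 3 * kap n) := by
    unfold nV gg
    rw [mm_eq, pow_add]
    refine Nat.mul_le_mul_left _ ?_
    calc 2 ^ (3 * (kap n * rr n)) = (2 ^ rr n) ^ (3 * kap n) := by
          rw [← pow_mul]
          congr 1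
          ring
      _ ≤ kap n ^ (3 * kap n) := Nat.pow_le_pow_left (two_pow_rr_le_kap n) _
  calc nV n ^ (2 * kap n) ≤ (kap n ^ (6 + 3 * kap n)) ^ (2 * kap n) := Nat.pow_le_pow_left h1 _
    _ = kap n ^ ((6 + 3 * kap n) * (2 * kap n)) := by rw [← pow_mul]
    _ ≤ kap n ^ (6 * kap n ^ 2 * 2) := Nat.pow_le_pow_right (by omega) (by nlinarith)
    _ = (kap n ^ (6 * kap n ^ 2)) ^ 2 := by rw [← pow_mul]
    _ ≤ N ^ 2 := Nat.pow_le_pow_left ((pow_le_nE n).trans hN) 2

end Pool.Agent.Helper64.ETHS
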