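import Mathlib
import Pool.Agent.Helper64.ETHT.Final
import Pool.Agent.Helper64.ETHS.MainT
import Pool.Agent.Helper64.ETHS.Size

/-!
# The sharp form of the ETH hardness of dualization, with the time bound assumed only for small transversals
-/

set_option autoImplicit false

namespace Pool.Agent.Helper64.ETHS

open Pool.Agent.Helper36.PT Pool.Agent.Helper81.VCP Pool.Agent.Helper50.ETH
open Pool.Agent.Helper64.ETH Pool.Agent.Helper33.ETH Pool.Agent.Helper58.ETHT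
open Pool.Agent.Helper64.ETHT (Tg Tg_mono le_Tg root_le le_root aux_pow)

theorem eth_small (a b : ℕ) (hb : 0 < b) (h1 : 2 * b < 3 * a) (h2 : a ≤ b) (g : ℕ → ℕ)
    (hg : ∀ ε : ℝ, 0 < ε → ∃ N0 : ℕ, ∀ N : ℕ, N0 ≤ N → (g N : ℝ) ≤ ε * hh ((a : ℝ) / b) N)
    {tm : Turing.FinTM2} {eIn : tm.Γ tm.k₀ ≃ Option Bool} {eOut : tm.Γ tm.k₁ ≃ Option Bool}
    (hD : DualS tm eIn eOut
      (fun n k N => (k : ℝ) ≤ 2 * √(Real.log ((N + 2 : ℕ) : ℝ) / Real.log (Real.log ((N + 2 : ℕ) : ℝ))) ∧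
        n ^ k ≤ (N + 2) ^ 2)
      (fun N => (N + 2) ^ g (N + 2))) (δ : ℝ) (hδ : 0 < δ) :
    ∃ tm : Turing.FinTM2, ∃ eIn : tm.Γ tm.k₀ ≃ Option Bool, ∃ eOut : tm.Γ tm.k₁ ≃ Option Bool,
      ∃ C : ℕ, ∀ (n : ℕ) (φ : List (Fin n → Option Bool)), Width3 φ →
        Nonempty (Turing.EvalsToInTime tm.step
          (Turing.initList tm (List.map (fun b : Option Bool => eIn.symm b) (code φ)))
          (some (Turing.haltList tm
            (List.map (fun b : Option Bool => eOut.symm b) [some (dec (Sat φ))])))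
          ((n + φ.length + 2) ^ C * 2 ^ ⌊δ * (n : ℝ) ^ ((a : ℝ) / b)⌋₊)) := by
  have hT : Monotone (fun N => Tg (fun N => g N + 1) (N + 2)) := fun x y h => Tg_mono _ (by omega)
  have hD' : DualS tm eIn eOut
      (fun n k N => (k : ℝ) ≤ 2 * √(Real.log ((N + 2 : ℕ) : ℝ) / Real.log (Real.log ((N + 2 : ℕ) : ℝ))) ∧
        n ^ k ≤ (N + 2) ^ 2)
      (fun N => Tg (fun N => g N + 1) (N + 2)) := by
    intro n E
    obtain ⟨L, h1, h2, t, h3, h4⟩ := hD n E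
    refine ⟨L, h1, h2, t, h3, fun k h5 h6 => (h4 k h5 h6).trans ?_⟩
    refine le_trans ?_ (le_Tg _ _)
    exact Nat.pow_le_pow_right (by omega) (by omega)
  have hP : ∀ n N : ℕ, nE n ≤ N →
      ((2 * kap n : ℕ) : ℝ) ≤ 2 * √(Real.log ((N + 2 : ℕ) : ℝ) / Real.log (Real.log ((N + 2 : ℕ) : ℝ))) ∧
        nV n ^ (2 * kap n) ≤ (N + 2) ^ 2 := by
    intro n N hN
    have h1 := kap_le_sqrt n (N + 2) (by omega)
    refine ⟨?_, nV_pow_le n (N + 2) (by omega)⟩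
    rw [Nat.cast_mul, Nat.cast_ofNat]
    linarith
  obtain ⟨C2, hC2⟩ := main_T3 hT hD' hP Pool.Agent.Helper64.ETH.prs Pool.Agent.Helper64.ETH.prs_pt
    Pool.Agent.Helper64.ETH.prs_spec Pool.Agent.Helper67.ETH.wordF Pool.Agent.Helper67.ETH.wordF_pt
    Pool.Agent.Helper67.ETH.wordF_eq Pool.Agent.Helper67.ETH.kap_polyTime
  obtain ⟨J, hJ⟩ := exists_nat_gt ((C2 : ℝ) / δ)
  have hJ0 : 0 < J := by
    rcases Nat.eq_zero_or_pos J with h | h
    · rw [h, Nat.cast_zero] at hJ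
      have : 0 ≤ (C2 : ℝ) / δ := by positivity
      linarith
    · exact h
  have hJr : (0 : ℝ) < J := by exact_mod_cast hJ0
  have hbr : (0 : ℝ) < b := by exact_mod_cast hb
  have hβ1 : (2 / 3 : ℝ) < (a : ℝ) / b := by
    rw [div_lt_div_iff₀ (by norm_num) hbr]
    exact_mod_cast (by omega : 2 * b < a * 3)
  have hβ2 : (a : ℝ) / b ≤ 1 := by
    rw [div_le_one hbr]
    exact_mod_cast h2
  obtain ⟨C0, hC0'⟩ := arith ((a : ℝ) / b) hβ1 hβ2 g hg J hJ0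
  have hC0 : ∀ n, Tg (fun N => g N + 1) (bound n) ≤ 2 ^ (Helper15.ETH.root b (n ^ a) / J + C0) := by
    intro n
    unfold Tg
    apply Finset.sup_le
    intro M hM
    rw [Finset.mem_range] at hM
    rcases Nat.eq_zero_or_pos M with h | h
    · subst h
      rw [zero_pow (Nat.succ_ne_zero _)]
      exact Nat.zero_le _
    · refine (hC0' n M h (by omega)).trans (Nat.pow_le_pow_right (by norm_num) ?_)
      have h5 : ⌊(n : ℝ) ^ ((a : ℝ) / b)⌋₊ ≤ Helper15.ETH.root b (n ^ a) := by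
        have h6 := Nat.floor_mono (le_root a b n hb)
        rwa [Nat.floor_natCast] at h6
      have h7 : ⌊(n : ℝ) ^ ((a : ℝ) / b)⌋₊ / J ≤ Helper15.ETH.root b (n ^ a) / J := Nat.div_le_div_right h5
      omega
  have hBpt : PolyTime (fun n : ℕ => Helper15.ETH.root b (n ^ a) / J + C0) := by
    fun_prop
  obtain ⟨tm', eIn', eOut', C, hC⟩ := hC2 (fun n => Helper15.ETH.root b (n ^ a) / J + C0) hBpt
    (fun n => by
      refine le_trans ?_ (hC0 n)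
      refine le_trans ?_ (le_Tg _ _)
      exact Nat.le_self_pow (by omega) _)
    (fun n => by
      have h3 : bound n - 2 + 2 = bound n := by
        have := Pool.Agent.Helper16.ETH.two_le_bound n
        omega
      rw [h3]
      exact hC0 n)
  refine ⟨tm', eIn', eOut', C + (C2 * C0 + ⌈δ⌉₊ + 1), fun n φ hφ => ?_⟩
  obtain ⟨tr⟩ := hC n φ hφ
  refine ⟨{ tr with steps_le_m := tr.steps_le_m.trans ?_ }⟩
  set r := Helper15.ETH.root b (n ^ a) with hr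
  have hroot := root_le a b n hb
  rw [← hr] at hroot
  have hnn : (0 : ℝ) ≤ (n : ℝ) ^ ((a : ℝ) / b) := by positivity
  -- the exponent
  have hexp : C2 * (r / J + C0) ≤ ⌊δ * (n : ℝ) ^ ((a : ℝ) / b)⌋₊ + (C2 * C0 + ⌈δ⌉₊ + 1) := by
    have e1 : ((C2 * (r / J + C0) : ℕ) : ℝ) ≤ δ * (n : ℝ) ^ ((a : ℝ) / b) + δ + C2 * C0 := by
      have e2 : (((r / J : ℕ)) : ℝ) ≤ (r : ℝ) / J := Nat.cast_div_le
      have e3 : (C2 : ℝ) * ((r : ℝ) / J) ≤ δ * r := by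
        have e4 : (C2 : ℝ) / J ≤ δ := by
          rw [div_le_iff₀ hJr]
          rw [div_lt_iff₀ hδ] at hJ
          linarith
        have hr0 : (0 : ℝ) ≤ r := Nat.cast_nonneg _
        calc (C2 : ℝ) * ((r : ℝ) / J) = (C2 : ℝ) / J * r := by ring
          _ ≤ δ * r := mul_le_mul_of_nonneg_right e4 hr0
      have hC20 : (0 : ℝ) ≤ C2 := Nat.cast_nonneg _
      push_cast
      calc (C2 : ℝ) * (((r / J : ℕ) : ℝ) + C0) = (C2 : ℝ) * ((r / J : ℕ) : ℝ) + C2 * C0 := by ring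
        _ ≤ (C2 : ℝ) * ((r : ℝ) / J) + C2 * C0 := by
            have := mul_le_mul_of_nonneg_left e2 hC20
            linarith
        _ ≤ δ * r + C2 * C0 := by linarith
        _ ≤ δ * ((n : ℝ) ^ ((a : ℝ) / b) + 1) + C2 * C0 := by
            have := mul_le_mul_of_nonneg_left hroot hδ.le
            linarith
        _ = δ * (n : ℝ) ^ ((a : ℝ) / b) + δ + C2 * C0 := by ring
    have e5 : δ * (n : ℝ) ^ ((a : ℝ) / b) < ⌊δ * (n : ℝ) ^ ((a : ℝ) / b)⌋₊ + 1 := Nat.lt_floor_add_one _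
    have e6 : δ ≤ ⌈δ⌉₊ := Nat.le_ceil δ
    have e7 : ((C2 * (r / J + C0) : ℕ) : ℝ) <
        ((⌊δ * (n : ℝ) ^ ((a : ℝ) / b)⌋₊ + (C2 * C0 + ⌈δ⌉₊ + 1) : ℕ) : ℝ) := by
      refine lt_of_le_of_lt e1 ?_
      push_cast
      linarith
    exact_mod_cast e7.le
  calc (n + φ.length + 2) ^ C * 2 ^ (C2 * (r / J + C0))
      ≤ (n + φ.length + 2) ^ C * 2 ^ (⌊δ * (n : ℝ) ^ ((a : ℝ) / b)⌋₊ + (C2 * C0 + ⌈δ⌉₊ + 1)) :=
        Nat.mul_le_mul_left _ (Nat.pow_le_pow_right (by norm_num) hexp)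
    _ = (n + φ.length + 2) ^ C * 2 ^ (C2 * C0 + ⌈δ⌉₊ + 1) * 2 ^ ⌊δ * (n : ℝ) ^ ((a : ℝ) / b)⌋₊ :=
        aux_pow _ _ _
    _ ≤ (n + φ.length + 2) ^ C * (n + φ.length + 2) ^ (C2 * C0 + ⌈δ⌉₊ + 1) *
          2 ^ ⌊δ * (n : ℝ) ^ ((a : ℝ) / b)⌋₊ := by
        apply Nat.mul_le_mul_right
        apply Nat.mul_le_mul_left
        exact Nat.pow_le_pow_left (by omega) _
    _ = (n + φ.length + 2) ^ (C + (C2 * C0 + ⌈δ⌉₊ + 1)) * 2 ^ ⌊δ * (n : ℝ) ^ ((a : ℝ) / b)⌋₊ := by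
        rw [pow_add _ C (C2 * C0 + ⌈δ⌉₊ + 1)]

end Pool.Agent.Helper64.ETHS
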